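import Mathlib

/-!
# Conservative real Henon maps with an annular rotation domain

For every degree `d ≥ 2` and both signs `b = 1`, `b = -1` we give a real polynomial `p` of degree
`d` such that the conservative Henon map `(x, y) ↦ (p(x) - b y, x)` has exactly one periodic point,
the origin. Hence the punctured plane is an invariant open annulus without periodic points.
-/

open Set Function Polynomial

namespace Pool.Agent.Results.MP_8a808a_an.AnnularDomain

/-- The real polynomial Henon map `(x, y) ↦ (p(x) - b y, x)`. -/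
noncomputable def henon (p : ℝ[X]) (b : ℝ) (z : ℝ × ℝ) : ℝ × ℝ := (p.eval z.1 - b * z.2, z.1)

/-- `A` is an annular rotation domain of the plane map `f`: an open set, homeomorphic to the open
annulus `S¹ × (0,1)`, with `f(A) = A`, and containing no periodic point of `f`. -/
def IsAnnularRotationDomain (f : ℝ × ℝ → ℝ × ℝ) (A : Set (ℝ × ℝ)) : Prop :=
  IsOpen A ∧ Nonempty (A ≃ₜ Circle × Ioo (0 : ℝ) 1) ∧ f '' A = A ∧ ∀ z ∈ A, z ∉ periodicPts f

/-! ### The punctured plane is an open annulus -/

/-- `(0, ∞)` is homeomorphic to `(0, 1)`. -/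
noncomputable def ioiHomeo : Ioi (0 : ℝ) ≃ₜ Ioo (0 : ℝ) 1 where
  toFun x := ⟨x / (1 + x), by
    have hx : (0 : ℝ) < x := x.2
    refine ⟨by positivity, ?_⟩
    rw [div_lt_one (by positivity)]; linarith⟩
  invFun y := ⟨y / (1 - y), by
    have h1 : (0 : ℝ) < y := y.2.1
    have h2 : (y : ℝ) < 1 := y.2.2
    show (0 : ℝ) < y / (1 - y)
    exact div_pos h1 (by linarith)⟩
  left_inv x := by
    have hx : (0 : ℝ) < x := x.2
    ext
    simp only
    field_simp
    ring
  right_inv y := by
    have h1 : (0 : ℝ) < y := y.2.1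
    have h2 : (y : ℝ) < 1 := y.2.2
    have h3 : (1 - (y : ℝ)) ≠ 0 := by linarith
    ext
    simp only
    field_simp
    ring
  continuous_toFun := by
    refine Continuous.subtype_mk ?_ _
    refine Continuous.div (by fun_prop) (by fun_prop) fun x => ?_
    have hx : (0 : ℝ) < x := x.2
    positivity
  continuous_invFun := by
    refine Continuous.subtype_mk ?_ _
    refine Continuous.div (by fun_prop) (by fun_prop) fun y => ?_
    have h2 : (y : ℝ) < 1 := y.2.2
    linarith

/-- The unit sphere of `ℂ` is the circle. -/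
noncomputable def sphereHomeo : Metric.sphere (0 : ℂ) 1 ≃ₜ Circle where
  toFun x := ⟨x, x.2⟩
  invFun x := ⟨x, x.2⟩
  left_inv _ := rfl
  right_inv _ := rfl
  continuous_toFun := Continuous.subtype_mk continuous_subtype_val _
  continuous_invFun := Continuous.subtype_mk continuous_subtype_val _

/-- The punctured plane is homeomorphic to the open annulus. -/
noncomputable def puncturedHomeo : ({0}ᶜ : Set (ℝ × ℝ)) ≃ₜ Circle × Ioo (0 : ℝ) 1 :=
  ((Complex.equivRealProdCLM.symm.toHomeomorph.subtype (p := fun z => z ∈ ({0}ᶜ : Set (ℝ × ℝ)))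
    (q := fun z => z ∈ ({0}ᶜ : Set ℂ)) (fun z => by
      simp only [mem_compl_iff, mem_singleton_iff, not_iff_not]
      exact (Complex.equivRealProdCLM.symm.map_eq_zero_iff).symm)).trans
    (homeomorphUnitSphereProd ℂ)).trans (sphereHomeo.prodCongr ioiHomeo)

/-! ### The Henon maps -/

/-- The polynomials used: `X ^ d + 2 X` for `b = 1`, and `X ^ d` for `b = -1`. -/
noncomputable def pol (d : ℕ) (b : ℝ) : ℝ[X] := X ^ d + C (1 + b) * X

lemma eval_pol (d : ℕ) (b x : ℝ) : (pol d b).eval x = x ^ d + (1 + b) * x := by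
  simp [pol]

lemma natDegree_pol (d : ℕ) (hd : 2 ≤ d) (b : ℝ) : (pol d b).natDegree = d := by
  unfold pol
  rw [natDegree_add_eq_left_of_natDegree_lt]
  · simp
  · refine lt_of_le_of_lt (natDegree_C_mul_X_pow_le (1 + b) 1 |> (by simpa using ·)) ?_
    simp; omega

lemma sum_shift (g : ℕ → ℝ) (n : ℕ) (hg : ∀ i, g (i + n) = g i) :
    ∑ i ∈ Finset.range n, g (i + 1) = ∑ i ∈ Finset.range n, g i := by
  have h1 := Finset.sum_range_succ' g n
  have h2 := Finset.sum_range_succ g n
  have h3 := hg 0
  rw [zero_add] at h3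
  linarith

/-- The only periodic point is the origin. -/
lemma eq_zero_of_periodic (d : ℕ) (hd : 2 ≤ d) (b : ℝ) (hb : b = 1 ∨ b = -1) (z : ℝ × ℝ)
    (hz : z ∈ periodicPts (henon (pol d b) b)) : z = 0 := by
  obtain ⟨n, hn, hz⟩ := hz
  set f := henon (pol d b) b with hf
  -- the orbit and its first coordinates
  set x : ℕ → ℝ := fun i => (f^[i] z).1 with hx
  have hsucc : ∀ i, f^[i + 1] z = f (f^[i] z) := fun i => iterate_succ_apply' f i z
  have h2 : ∀ i, (f^[i + 1] z).2 = x i := by
    intro i; rw [hsucc]; rfl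
  have h1 : ∀ i, x (i + 2) = x (i + 1) ^ d + (1 + b) * x (i + 1) - b * x i := by
    intro i
    simp only [hx]
    rw [hsucc (i + 1)]
    show (pol d b).eval _ - b * _ = _
    rw [h2 i, eval_pol]
  have hper : ∀ i, x (i + n) = x i := by
    intro i
    simp only [hx]
    rw [iterate_add_apply, hz]
  have s1 := sum_shift x n hper
  have s2 : ∑ i ∈ Finset.range n, x (i + 2) = ∑ i ∈ Finset.range n, x (i + 1) :=
    sum_shift (fun i => x (i + 1)) n (fun i => by
      show x (i + n + 1) = x (i + 1)
      rw [show i + n + 1 = i + 1 + n by ring, hper])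
  have s3 : ∑ i ∈ Finset.range n, x (i + 2) * x (i + 1) = ∑ i ∈ Finset.range n, x (i + 1) * x i :=
    sum_shift (fun i => x (i + 1) * x i) n (fun i => by
      show x (i + n + 1) * x (i + n) = x (i + 1) * x i
      rw [show i + n + 1 = i + 1 + n by ring, hper, hper])
  have s4 : ∑ i ∈ Finset.range n, x (i + 1) ^ 2 = ∑ i ∈ Finset.range n, x i ^ 2 :=
    sum_shift (fun i => x i ^ 2) n (fun i => by
      show x (i + n) ^ 2 = x i ^ 2
      rw [hper])
  -- an even power of the coordinates sums to something nonpositive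
  obtain ⟨e, he, hsum, he0⟩ :
      ∃ e, Even e ∧ ∑ i ∈ Finset.range n, x (i + 1) ^ e ≤ 0 ∧ e ≠ 0 := by
    rcases Nat.even_or_odd d with hd2 | hd2
    · refine ⟨d, hd2, ?_, by omega⟩
      have h3 : ∀ i, x (i + 1) ^ d = x (i + 2) - (1 + b) * x (i + 1) + b * x i := by
        intro i; rw [h1 i]; ring
      have h4 : ∑ i ∈ Finset.range n, x (i + 1) ^ d
          = ∑ i ∈ Finset.range n, x (i + 2) - (1 + b) * ∑ i ∈ Finset.range n, x (i + 1)
            + b * ∑ i ∈ Finset.range n, x i := by
        rw [Finset.mul_sum, Finset.mul_sum, ← Finset.sum_sub_distrib, ← Finset.sum_add_distrib]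
        exact Finset.sum_congr rfl fun i _ => h3 i
      rw [h4, s2, s1]
      linarith
    · refine ⟨d + 1, hd2.add_one, ?_, by omega⟩
      have h3 : ∀ i, x (i + 1) ^ (d + 1)
          = x (i + 2) * x (i + 1) - (1 + b) * x (i + 1) ^ 2 + b * (x (i + 1) * x i) := by
        intro i
        have h := h1 i
        have h' : x (i + 1) ^ d = x (i + 2) - (1 + b) * x (i + 1) + b * x i := by linarith
        rw [pow_succ, h']; ring
      have h4 : ∑ i ∈ Finset.range n, x (i + 1) ^ (d + 1)
          = ∑ i ∈ Finset.range n, x (i + 2) * x (i + 1)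
            - (1 + b) * ∑ i ∈ Finset.range n, x (i + 1) ^ 2
            + b * ∑ i ∈ Finset.range n, x (i + 1) * x i := by
        rw [Finset.mul_sum, Finset.mul_sum, ← Finset.sum_sub_distrib, ← Finset.sum_add_distrib]
        exact Finset.sum_congr rfl fun i _ => h3 i
      have h5 : 0 ≤ ∑ i ∈ Finset.range n, (x (i + 1) - x i) ^ 2 :=
        Finset.sum_nonneg fun i _ => sq_nonneg _
      have h6 : ∑ i ∈ Finset.range n, (x (i + 1) - x i) ^ 2
          = ∑ i ∈ Finset.range n, x (i + 1) ^ 2 - 2 * ∑ i ∈ Finset.range n, x (i + 1) * x i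
            + ∑ i ∈ Finset.range n, x i ^ 2 := by
        rw [Finset.mul_sum, ← Finset.sum_sub_distrib, ← Finset.sum_add_distrib]
        exact Finset.sum_congr rfl fun i _ => by ring
      rw [h4, s3, s4]
      rw [s4] at h6
      rcases hb with rfl | rfl
      · linarith
      · linarith
  have hnn : ∀ i ∈ Finset.range n, 0 ≤ x (i + 1) ^ e := fun i _ => he.pow_nonneg _
  have hzero : ∀ i ∈ Finset.range n, x (i + 1) ^ e = 0 :=
    (Finset.sum_eq_zero_iff_of_nonneg hnn).1 (le_antisymm hsum (Finset.sum_nonneg hnn))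
  have hx0 : ∀ i, i < n → x (i + 1) = 0 := fun i hi =>
    pow_eq_zero_iff he0 |>.1 (hzero i (Finset.mem_range.2 hi))
  have hxn : x n = 0 := by
    obtain ⟨k, rfl⟩ : ∃ k, n = k + 1 := ⟨n - 1, by omega⟩
    exact hx0 k (by omega)
  have hx00 : x 0 = 0 := by
    have := hper 0
    rw [zero_add, hxn] at this
    exact this.symm
  have hlast : x (n - 1) = 0 := by
    by_cases h : n = 1
    · subst h; simpa using hx00
    · have := hx0 (n - 2) (by omega)
      rwa [show n - 2 + 1 = n - 1 by omega] at this
  have hz2 : z.2 = 0 := by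
    have h := h2 (n - 1)
    rw [show n - 1 + 1 = n by omega, hz] at h
    rw [h, hlast]
  have hz1 : z.1 = 0 := hx00
  exact Prod.ext hz1 hz2

lemma henon_bijective (p : ℝ[X]) (b : ℝ) (hb : b ≠ 0) : Bijective (henon p b) := by
  refine bijective_iff_has_inverse.2 ⟨fun w => (w.2, (p.eval w.2 - w.1) / b), ?_, ?_⟩
  · intro z
    unfold henon
    ext
    · rfl
    · simp only; field_simp; ring
  · intro w
    unfold henon
    ext
    · simp only; field_simp; ring
    · rfl

/-- **Existence of annular rotation domains.**  For every degree `d ≥ 2` and each `b = 1`, `b = -1`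
there is a real polynomial `p` of degree `d` such that the conservative Henon map
`(x, y) ↦ (p(x) - b y, x)` has an annular rotation domain in the plane, namely the complement of
its only periodic point, the origin. -/
theorem result (d : ℕ) (hd : 2 ≤ d) (b : ℝ) (hb : b = 1 ∨ b = -1) :
    ∃ p : ℝ[X], p.natDegree = d ∧ periodicPts (henon p b) = {0} ∧
      IsAnnularRotationDomain (henon p b) {0}ᶜ := by
  have hb0 : b ≠ 0 := by rcases hb with rfl | rfl <;> norm_num
  have hfix : henon (pol d b) b 0 = 0 := by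
    unfold henon
    rw [eval_pol]
    ext <;> simp [show d ≠ 0 by omega]
  have hper : periodicPts (henon (pol d b) b) = {0} := by
    ext z
    rw [mem_singleton_iff]
    constructor
    · exact eq_zero_of_periodic d hd b hb z
    · rintro rfl
      exact ⟨1, one_pos, hfix⟩
  have hbij := henon_bijective (pol d b) b hb0
  refine ⟨pol d b, natDegree_pol d hd b, hper, isOpen_compl_singleton, ⟨puncturedHomeo⟩, ?_, ?_⟩
  · rw [image_compl_eq hbij, image_singleton, hfix]
  · intro z hz
    rw [hper]
    exact hz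

end Pool.Agent.Results.MP_8a808a_an.AnnularDomain
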